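import Pool.Agent.N269.PK.Cover

/-!
# Faithful circuit covers for weights divisible by an odd number

For odd `k`, no graph that contains a subdivision of the Petersen graph has property `P_k`: there is
an admissible eulerian weight with values in `{0, k, 2 k}` without a faithful circuit cover. By the
theorem of Alspach, Goddyn and Zhang all other graphs have property `P_1`, hence property `P_k`.

Definitions (file `Pool/Agent/N269/PK/Base.lean`): `Multigraph`, `Multigraph.deg`, `Multigraph.IsCircuit`,
`Multigraph.cut`, `Multigraph.Eulerian`, `Multigraph.Admissible`, `Multigraph.FaithfulCover`, `Multigraph.Property k`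
(property `P_k` of the problem), `PetersenSubdivision G`.
-/

set_option autoImplicit false

namespace Pool.Agent.Results.MP_3c540c_co.OddMultipliers

open Pool.Agent.N269.PK

/-- The theorem of Alspach, Goddyn and Zhang: a finite graph without a subdivision of the Petersen
graph has property `P_1`. -/
def AlspachGoddynZhang : Prop :=
  ∀ (V E : Type) [Fintype V] [DecidableEq V] [Fintype E] [DecidableEq E] (G : Multigraph V E),
    IsEmpty (PetersenSubdivision G) → G.Property 1

/-- Let `k` be odd.
1. If the graph `G` contains a subdivision of the Petersen graph, then `G` does not have property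
`P_k`; more precisely there is an admissible eulerian weight of `G` with values in `{0, k, 2 k}`
without a faithful circuit cover.
2. Hence, by the theorem of Alspach, Goddyn and Zhang, a graph has property `P_k` if and only if it
contains no subdivision of the Petersen graph, if and only if it has property `P_1`. -/
theorem result (k : ℕ) (hk : Odd k) :
    (∀ (V E : Type) [Fintype V] [DecidableEq V] [Fintype E] [DecidableEq E] (G : Multigraph V E),
      Nonempty (PetersenSubdivision G) → ¬ G.Property k ∧
        ∃ w : E → ℕ, (∀ e, w e = 0 ∨ w e = k ∨ w e = 2 * k) ∧ G.Eulerian w ∧ G.Admissible w ∧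
          ¬ G.FaithfulCover w) ∧
    (AlspachGoddynZhang →
      ∀ (V E : Type) [Fintype V] [DecidableEq V] [Fintype E] [DecidableEq E] (G : Multigraph V E),
        (G.Property k ↔ IsEmpty (PetersenSubdivision G)) ∧ (G.Property k ↔ G.Property 1)) := by
  have h1 : ∀ (V E : Type) [Fintype V] [DecidableEq V] [Fintype E] [DecidableEq E]
      (G : Multigraph V E), Nonempty (PetersenSubdivision G) → ¬ G.Property k ∧
        ∃ w : E → ℕ, (∀ e, w e = 0 ∨ w e = k ∨ w e = 2 * k) ∧ G.Eulerian w ∧ G.Admissible w ∧
          ¬ G.FaithfulCover w := by
    rintro V E _ _ _ _ G ⟨S⟩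
    refine ⟨fun h => no_cover S hk (h _ (wt_dvd S k) (wt_eulerian S k) (wt_admissible S k)),
      wt S k, ?_, wt_eulerian S k, wt_admissible S k, no_cover S hk⟩
    intro e
    by_cases he : ∃ i, e ∈ S.path i
    · obtain ⟨i, hi⟩ := he
      right
      rw [wt_of_mem S k hi]
      unfold pw
      split_ifs
      · right; ring
      · left; ring
    · left
      push Not at he
      exact wt_of_not S k he
  refine ⟨h1, fun hAGZ V E _ _ _ _ G => ?_⟩
  have h2 : G.Property 1 → G.Property k := fun h w _ he ha => h w (fun e => one_dvd _) he ha
  have h3 : G.Property k → IsEmpty (PetersenSubdivision G) := by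
    intro h
    by_contra hcon
    rw [not_isEmpty_iff] at hcon
    exact (h1 V E G hcon).1 h
  exact ⟨⟨h3, fun h => h2 (hAGZ V E G h)⟩, ⟨fun h => hAGZ V E G (h3 h), h2⟩⟩

end Pool.Agent.Results.MP_3c540c_co.OddMultipliers
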